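import Pool.Agent.H89.FLT.S

/-!
# Compact flats, row CNT: separated points of a ball
-/

set_option autoImplicit false

namespace Pool.FLT

open MeasureTheory Metric Set Module
open scoped ENNReal Function

theorem cnt : CNTStmt := by
  intro m c0 hc0
  refine ⟨(1 + 2 / c0) ^ m, by positivity, ?_⟩
  intro E _ _ _ hm S ρ hρ hS hsep
  borelize E
  let μ : Measure E := Measure.addHaar
  have hr : 0 < c0 / 2 := by linarith
  have hR : 0 < ρ + c0 / 2 := by linarith
  have key : ∀ F : Finset E, (F : Set E) ⊆ S → (F.card : ℝ) ≤ (1 + 2 / c0) ^ m * ρ ^ m := by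
    intro F hF
    have D : Set.Pairwise (F : Set E) (Disjoint on fun c => ball (c : E) (c0 / 2)) := by
      rintro c hc d hd hcd
      apply ball_disjoint_ball
      have := hsep c (hF hc) d (hF hd) hcd
      linarith
    have hsub : (⋃ c ∈ F, ball (c : E) (c0 / 2)) ⊆ ball (0 : E) (ρ + c0 / 2) := by
      refine iUnion₂_subset fun x hx => ?_
      apply ball_subset_ball'
      have := hS x (hF hx)
      rw [dist_zero_right]
      linarith
    have I : (F.card : ℝ≥0∞) * ENNReal.ofReal ((c0 / 2) ^ finrank ℝ E) * μ (ball 0 1) ≤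
        ENNReal.ofReal ((ρ + c0 / 2) ^ finrank ℝ E) * μ (ball 0 1) :=
      calc
        (F.card : ℝ≥0∞) * ENNReal.ofReal ((c0 / 2) ^ finrank ℝ E) * μ (ball 0 1) =
            μ (⋃ c ∈ F, ball (c : E) (c0 / 2)) := by
          rw [measure_biUnion_finset D fun c _ => measurableSet_ball]
          simp only [μ.addHaar_ball_of_pos _ hr]
          simp only [Finset.sum_const, nsmul_eq_mul, mul_assoc]
        _ ≤ μ (ball (0 : E) (ρ + c0 / 2)) := measure_mono hsub
        _ = ENNReal.ofReal ((ρ + c0 / 2) ^ finrank ℝ E) * μ (ball 0 1) := by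
          simp only [μ.addHaar_ball_of_pos _ hR]
    have J : (F.card : ℝ≥0∞) * ENNReal.ofReal ((c0 / 2) ^ finrank ℝ E) ≤
        ENNReal.ofReal ((ρ + c0 / 2) ^ finrank ℝ E) :=
      (ENNReal.mul_le_mul_iff_left (measure_ball_pos _ _ zero_lt_one).ne'
        measure_ball_lt_top.ne).1 I
    have K := ENNReal.toReal_le_of_le_ofReal (pow_nonneg hR.le _) J
    rw [ENNReal.toReal_mul, ENNReal.toReal_natCast, ENNReal.toReal_ofReal (by positivity), hm] at K
    have h1 : (ρ + c0 / 2) ≤ (1 + 2 / c0) * ρ * (c0 / 2) := by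
      have h2 : (1 + 2 / c0) * ρ * (c0 / 2) = ρ * (c0 / 2) + ρ := by
        field_simp
      rw [h2]
      nlinarith
    have h2 : (ρ + c0 / 2) ^ m ≤ (1 + 2 / c0) ^ m * ρ ^ m * (c0 / 2) ^ m := by
      rw [← mul_pow, ← mul_pow]
      exact pow_le_pow_left₀ hR.le h1 m
    exact le_of_mul_le_mul_right (K.trans h2) (by positivity)
  have hfin : S.Finite := by
    by_contra hinf
    obtain ⟨F, hF, hFc⟩ := Set.Infinite.exists_subset_card_eq hinf
      (⌊(1 + 2 / c0) ^ m * ρ ^ m⌋₊ + 1)
    have h1 := key F hF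
    rw [hFc] at h1
    have h2 := Nat.lt_floor_add_one ((1 + 2 / c0) ^ m * ρ ^ m)
    push_cast at h1
    linarith
  refine ⟨hfin, ?_⟩
  rw [Set.ncard_eq_toFinset_card S hfin]
  exact key _ (by rw [Set.Finite.coe_toFinset])

end Pool.FLT
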