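import Pool.Agent.H89.FLT.S

/-!
# Compact flats, row MNK: Minkowski for a box
-/

set_option autoImplicit false

namespace Pool.FLT

open MeasureTheory Module
open scoped ENNReal

theorem mnk : MNKStmt := by
  intro n hn g
  let b := Pi.basisFun ℝ (Fin n)
  let L : AddSubgroup (Fin n → ℝ) := (Submodule.span ℤ (Set.range b)).toAddSubgroup
  have fund : IsAddFundamentalDomain L (ZSpan.fundamentalDomain b) (volume : Measure (Fin n → ℝ)) :=
    ZSpan.isAddFundamentalDomain' b volume
  have hc : Countable L := by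
    have : Countable (Submodule.span ℤ (Set.range b)) := inferInstance
    exact this
  let f : (Fin n → ℝ) →ₗ[ℝ] (Fin n → ℝ) :=
    Matrix.toLin' ((g⁻¹ : GR n) : Matrix (Fin n) (Fin n) ℝ)
  have hdet : LinearMap.det f = 1 := by
    rw [LinearMap.det_toLin']
    exact (g⁻¹ : GR n).2
  let s0 : Set (Fin n → ℝ) := Set.Icc (fun _ => (-2 : ℝ)) (fun _ => (2 : ℝ))
  have hs0 : volume s0 = (4 : ℝ≥0∞) ^ n := by
    rw [Real.volume_Icc_pi]
    rw [Finset.prod_const, Finset.card_univ, Fintype.card_fin]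
    norm_num
  have hvol : volume (f ⁻¹' s0) = (4 : ℝ≥0∞) ^ n := by
    rw [Measure.addHaar_preimage_linearMap volume (by rw [hdet]; exact one_ne_zero), hdet, hs0]
    simp
  have hF : volume (ZSpan.fundamentalDomain b) = 1 := by
    rw [ZSpan.fundamentalDomain_pi_basisFun, volume_pi_pi]
    simp
  have hsymm : ∀ x ∈ f ⁻¹' s0, -x ∈ f ⁻¹' s0 := by
    intro x hx
    rw [Set.mem_preimage, map_neg]
    rw [Set.mem_preimage] at hx
    refine ⟨fun i => ?_, fun i => ?_⟩
    · have := hx.2 i
      simp only [Pi.neg_apply]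
      linarith
    · have := hx.1 i
      simp only [Pi.neg_apply]
      linarith
  have hconv : Convex ℝ (f ⁻¹' s0) := (convex_Icc _ _).linear_preimage f
  have hlt : volume (ZSpan.fundamentalDomain b) * 2 ^ finrank ℝ (Fin n → ℝ) <
      volume (f ⁻¹' s0) := by
    rw [hF, hvol, one_mul, Module.finrank_fin_fun]
    exact ENNReal.pow_lt_pow_left (by omega) (by norm_num)
  obtain ⟨x, hx0, hx⟩ := exists_ne_zero_mem_lattice_of_measure_mul_two_pow_lt_measure fund hsymm
    hconv hlt
  have hxL : (x : Fin n → ℝ) ∈ Submodule.span ℤ (Set.range b) := x.2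
  rw [Basis.mem_span_iff_repr_mem] at hxL
  choose v hv using hxL
  have hxv : (x : Fin n → ℝ) = fun j => (v j : ℝ) := by
    funext j
    have := hv j
    simp only [b, Pi.basisFun_repr] at this
    rw [← this]
    simp
  refine ⟨v, ?_, ?_⟩
  · intro hv0
    apply hx0
    apply Subtype.ext
    rw [hxv, hv0]
    funext j
    simp
  · intro i
    have h1 : ((((g⁻¹ : GR n) : Matrix (Fin n) (Fin n) ℝ)).mulVec fun j => (v j : ℝ)) ∈ s0 := by
      have h2 : f (x : Fin n → ℝ) ∈ s0 := hx
      rw [hxv] at h2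
      exact h2
    rw [abs_le]
    exact ⟨h1.1 i, h1.2 i⟩

end Pool.FLT
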