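import Pool.Agent.H89.FLT.S

/-!
# Compact flats, row PCK: packing
-/

set_option autoImplicit false

namespace Pool.FLT

open MeasureTheory Metric Module
open scoped ENNReal

namespace PCK

instance vol_haar (n : ℕ) : (vol n).IsAddHaarMeasure := by
  unfold vol
  infer_instance

/-- a covering of a bounded set by translates, with bounded multiplicity -/
theorem cover {n : ℕ} (U B' : Set (aa n)) (hU : IsClosed U) (hB' : IsCompact B')
    (Λ : Finset (aa n)) (M : ℕ) (hcov : ∀ x ∈ U, ∃ l ∈ Λ, ∃ b ∈ B', x = l + b)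
    (hM : ∀ x : aa n, ∀ Λ' : Finset (aa n), Λ' ⊆ Λ → (∀ l ∈ Λ', l + x ∈ U) → Λ'.card ≤ M) :
    vol n U ≤ M * vol n B' := by
  classical
  set A : aa n → Set (aa n) := fun l => B' ∩ {x | l + x ∈ U} with hA
  have hAm : ∀ l, MeasurableSet (A l) := by
    intro l
    refine hB'.measurableSet.inter ?_
    exact (hU.preimage (continuous_const.add continuous_id)).measurableSet
  have h1 : vol n U ≤ ∑ l ∈ Λ, vol n (A l) := by
    have h2 : U ⊆ ⋃ l ∈ Λ, {y | y ∈ U ∧ y - l ∈ B'} := by
      intro x hx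
      obtain ⟨l, hl, b, hb, rfl⟩ := hcov x hx
      simp only [Set.mem_iUnion]
      exact ⟨l, hl, hx, by simpa using hb⟩
    refine (measure_mono h2).trans ((measure_biUnion_finset_le _ _).trans (le_of_eq ?_))
    refine Finset.sum_congr rfl fun l _ => ?_
    rw [← measure_preimage_add (vol n) l]
    congr 1
    ext x
    simp only [hA, Set.mem_preimage, Set.mem_inter_iff, Set.mem_ofPred_eq, add_sub_cancel_left]
    exact and_comm
  refine h1.trans ?_
  have h3 : ∀ l ∈ Λ, vol n (A l) = ∫⁻ x, (A l).indicator 1 x ∂(vol n) := fun l _ =>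
    (lintegral_indicator_one (hAm l)).symm
  rw [Finset.sum_congr rfl h3, ← lintegral_finsetSum _
    (fun l _ => (measurable_one.indicator (hAm l)))]
  calc ∫⁻ x, ∑ l ∈ Λ, (A l).indicator 1 x ∂(vol n) ≤
        ∫⁻ x, B'.indicator (fun _ => (M : ℝ≥0∞)) x ∂(vol n) := by
        refine lintegral_mono fun x => ?_
        by_cases hx : x ∈ B'
        · rw [Set.indicator_of_mem hx]
          have h4 : ∑ l ∈ Λ, (A l).indicator (1 : aa n → ℝ≥0∞) x =
              ((Λ.filter (fun l => l + x ∈ U)).card : ℝ≥0∞) := by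
            rw [Finset.card_filter, Nat.cast_sum]
            refine Finset.sum_congr rfl fun l _ => ?_
            by_cases hl : l + x ∈ U
            · rw [Set.indicator_of_mem (show x ∈ A l from ⟨hx, hl⟩), if_pos hl]
              simp
            · rw [Set.indicator_of_notMem (fun h : x ∈ A l => hl h.2), if_neg hl]
              simp
          rw [h4]
          exact Nat.cast_le.mpr (hM x _ (Finset.filter_subset _ _)
            fun l hl => (Finset.mem_filter.mp hl).2)
        · rw [Set.indicator_of_notMem hx]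
          refine le_of_eq (Finset.sum_eq_zero fun l _ => ?_)
          exact Set.indicator_of_notMem (fun h : x ∈ A l => hx h.1) _
    _ = M * vol n B' := by
        rw [lintegral_indicator_const hB'.measurableSet]

end PCK

open PCK

theorem pck (hC : CNTStmt) (hS : SUBStmt) (hG : GAPStmt) (hF : FRKStmt) : PCKStmt := by
  classical
  intro n hn
  obtain ⟨c0, hc0, hgap⟩ := hG n hn
  choose Cf hCf0 hCf using fun m : ℕ => hC m c0 hc0
  have hfr : finrank ℝ (aa n) = n - 1 := hF n (by omega)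
  set v1 : ℝ := (vol n (ball (0 : aa n) 1)).toReal with hv1
  have hv1' : vol n (ball (0 : aa n) 1) = ENNReal.ofReal v1 :=
    (ENNReal.ofReal_toReal measure_ball_lt_top.ne).symm
  have hv10 : 0 < v1 :=
    ENNReal.toReal_pos (measure_ball_pos _ _ one_pos).ne' measure_ball_lt_top.ne
  set C1 : ℝ := ∑ m ∈ Finset.range n, Cf m with hC1
  have hC1m : ∀ m < n, Cf m ≤ C1 := fun m hm =>
    Finset.single_le_sum (f := Cf) (fun m _ => (hCf0 m).le) (Finset.mem_range.mpr hm)
  have hC10 : 0 < C1 := lt_of_lt_of_le (hCf0 0) (hC1m 0 (by omega))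
  refine ⟨2 ^ (n - 1) * C1 / v1, by positivity, ?_⟩
  intro g B' V ρ W hB' hcov hV hvol hρ hSm
  obtain ⟨L, hL⟩ := hS n g
  have hsub : ∀ x ∈ Lam g, ∀ y ∈ Lam g, x - y ∈ Lam g := by
    intro x hx y hy
    rw [← hL] at hx hy ⊢
    exact L.sub_mem hx hy
  have hsep : ∀ x ∈ Lam g, ∀ y ∈ Lam g, x ≠ y → c0 ≤ dist x y := by
    intro x hx y hy hxy
    rw [dist_eq_norm]
    exact hgap g _ (hsub x hx y hy) (sub_ne_zero.mpr hxy)
  -- the multiplicity
  have hWn : finrank ℝ W < n := by
    have := Submodule.finrank_le W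
    omega
  have hcnt : (Sm g ρ).Finite ∧ ((Sm g ρ).ncard : ℝ) ≤ C1 * ρ ^ finrank ℝ W := by
    have hW : ∀ (S : Set W) (ρ : ℝ), 1 ≤ ρ → (∀ x ∈ S, ‖x‖ ≤ ρ) →
        (∀ x ∈ S, ∀ y ∈ S, x ≠ y → c0 ≤ dist x y) →
        S.Finite ∧ (S.ncard : ℝ) ≤ Cf (finrank ℝ W) * ρ ^ (finrank ℝ W) :=
      hCf (finrank ℝ W) W rfl
    obtain ⟨h1, h2⟩ := hW {w : W | (w : aa n) ∈ Sm g ρ} ρ hρ
      (fun x hx => hx.2) (fun x hx y hy hxy => hsep _ hx.1 _ hy.1
        (fun h => hxy (Subtype.ext h)))
    have h3 : Subtype.val '' {w : W | (w : aa n) ∈ Sm g ρ} = Sm g ρ := by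
      ext x
      constructor
      · rintro ⟨w, hw, rfl⟩
        exact hw
      · intro hx
        exact ⟨⟨x, hSm hx⟩, hx, rfl⟩
    have h4 : (Sm g ρ).ncard = {w : W | (w : aa n) ∈ Sm g ρ}.ncard := by
      have h5 := Set.ncard_image_of_injective {w : W | (w : aa n) ∈ Sm g ρ}
        (Subtype.val_injective (p := fun x => x ∈ W))
      rw [← h5]
      exact congrArg Set.ncard h3.symm
    refine ⟨?_, ?_⟩
    · rw [← h3]
      exact h1.image _
    · rw [h4]
      exact h2.trans (mul_le_mul_of_nonneg_right (hC1m _ hWn) (by positivity))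
  -- the covering
  obtain ⟨R, hR⟩ := hB'.isBounded.subset_closedBall (0 : aa n)
  have hfin : (Sm g (ρ + |R|)).Finite :=
    (hCf (finrank ℝ (aa n)) (aa n) rfl (Sm g (ρ + |R|)) (ρ + |R|)
      (by linarith [abs_nonneg R]) (fun x hx => hx.2)
      (fun x hx y hy hxy => hsep _ hx.1 _ hy.1 hxy)).1
  have hcover := cover (closedBall (0 : aa n) (ρ / 2)) B' isClosed_closedBall hB' hfin.toFinset
    (Sm g ρ).ncard ?_ ?_
  · -- conclusion
    rw [Measure.addHaar_closedBall _ _ (by linarith), hfr, hv1',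
      ← ENNReal.ofReal_mul (by positivity)] at hcover
    have h1 : ENNReal.ofReal ((ρ / 2) ^ (n - 1) * v1) ≤
        ENNReal.ofReal (((Sm g ρ).ncard : ℝ) * V) := by
      refine hcover.trans ?_
      rw [ENNReal.ofReal_mul (Nat.cast_nonneg _), ENNReal.ofReal_natCast]
      exact mul_le_mul_right hvol _
    rw [ENNReal.ofReal_le_ofReal_iff (by positivity)] at h1
    have h2 : ((Sm g ρ).ncard : ℝ) * V ≤ C1 * ρ ^ finrank ℝ W * V :=
      mul_le_mul_of_nonneg_right hcnt.2 hV
    have h3 : ρ ^ (n - 1) = ρ ^ (n - 1 - finrank ℝ W) * ρ ^ finrank ℝ W := by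
      rw [← pow_add]
      have : n - 1 - finrank ℝ W + finrank ℝ W = n - 1 := by omega
      rw [this]
    rw [div_pow, h3] at h1
    have hρ0 : 0 < ρ := by linarith
    have hp : 0 < ρ ^ finrank ℝ W := by positivity
    rw [div_mul_eq_mul_div, le_div_iff₀ hv10]
    have h4 : ρ ^ (n - 1 - finrank ℝ W) * v1 * ρ ^ finrank ℝ W ≤
        2 ^ (n - 1) * C1 * V * ρ ^ finrank ℝ W := by
      have h5 := h1.trans h2
      have h6 : (0 : ℝ) < 2 ^ (n - 1) := by positivity
      have h7 := mul_le_mul_of_nonneg_left h5 h6.le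
      have h8 : 2 ^ (n - 1) * (ρ ^ (n - 1 - finrank ℝ W) * ρ ^ finrank ℝ W / 2 ^ (n - 1) * v1) =
          ρ ^ (n - 1 - finrank ℝ W) * v1 * ρ ^ finrank ℝ W := by
        field_simp
      rw [h8] at h7
      linarith
    exact le_of_mul_le_mul_right h4 hp
  · intro x hx
    obtain ⟨l, hl, b, hb, rfl⟩ := hcov x
    refine ⟨l, ?_, b, hb, rfl⟩
    rw [Set.Finite.mem_toFinset]
    refine ⟨hl, ?_⟩
    rw [mem_closedBall_zero_iff] at hx
    have h1 : ‖b‖ ≤ R := by
      have := hR hb
      rwa [mem_closedBall_zero_iff] at this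
    have h2 : ‖l‖ ≤ ‖l + b‖ + ‖b‖ := by
      have := norm_sub_le (l + b) b
      rwa [add_sub_cancel_right] at this
    have h3 := le_abs_self R
    linarith
  · intro x Λ' hΛ' hx
    rcases Λ'.eq_empty_or_nonempty with h0 | ⟨l0, hl0⟩
    · rw [h0]
      simp
    have hl0L : l0 ∈ Lam g := ((Set.Finite.mem_toFinset hfin).mp (hΛ' hl0)).1
    have h1 : Λ'.card = (Λ'.image fun l => l - l0).card :=
      (Finset.card_image_of_injective _ sub_left_injective).symm
    rw [h1, ← Set.ncard_coe_finset]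
    refine Set.ncard_le_ncard ?_ hcnt.1
    intro y hy
    rw [Finset.mem_coe, Finset.mem_image] at hy
    obtain ⟨l, hl, rfl⟩ := hy
    have hlL : l ∈ Lam g := ((Set.Finite.mem_toFinset hfin).mp (hΛ' hl)).1
    refine ⟨hsub l hlL l0 hl0L, ?_⟩
    have h2 := hx l hl
    have h3 := hx l0 hl0
    rw [mem_closedBall_zero_iff] at h2 h3
    have h4 : l - l0 = (l + x) - (l0 + x) := by abel
    rw [h4]
    have := norm_sub_le (l + x) (l0 + x)
    linarith

end Pool.FLT
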